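import Pool.Agent.H27.HC.T
import Pool.Agent.H27.HB.UNQ

/-!
Row CEX of MP_8352e3_an: complex-valued extremals for `1 < p ≤ 2`.
-/

set_option autoImplicit false

namespace Pool.Agent.H27.HC
open MeasureTheory Set Filter Topology Pool.Agent.H80.HS Pool.Agent.H93.HQ Pool.Agent.H27.HB
open scoped ContDiff ENNReal

/-- The reverse Minkowski inequality. -/
lemma cex_int {n : ℕ} {s : ℝ} (hs0 : 0 < s) (hs1 : s ≤ 1) {F K : H n → ℝ}
    (hF0 : ∀ z, 0 ≤ F z) (hK0 : ∀ z, 0 ≤ K z) (hF : Integrable (fun z => F z ^ s))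
    (hK : Integrable (fun z => K z ^ s)) (hFK : Integrable (fun z => (F z + K z) ^ s)) :
    (∫ z, F z ^ s) ^ (1 / s) + (∫ z, K z ^ s) ^ (1 / s) ≤ (∫ z, (F z + K z) ^ s) ^ (1 / s) := by
  have hA0 : 0 ≤ ∫ z, F z ^ s := integral_nonneg fun z => Real.rpow_nonneg (hF0 z) _
  have hB0 : 0 ≤ ∫ z, K z ^ s := integral_nonneg fun z => Real.rpow_nonneg (hK0 z) _
  have hAE : ∫ z, F z ^ s ≤ ∫ z, (F z + K z) ^ s := integral_mono hF hFK fun z =>
    Real.rpow_le_rpow (hF0 z) (le_add_of_nonneg_right (hK0 z)) hs0.le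
  have hBE : ∫ z, K z ^ s ≤ ∫ z, (F z + K z) ^ s := integral_mono hK hFK fun z =>
    Real.rpow_le_rpow (hK0 z) (le_add_of_nonneg_left (hF0 z)) hs0.le
  have hs' : 0 < 1 / s := by positivity
  set A := ∫ z, F z ^ s with hA
  set B := ∫ z, K z ^ s with hB
  set E := ∫ z, (F z + K z) ^ s with hE
  rcases hA0.eq_or_lt with h | hAp
  · rw [← h, Real.zero_rpow hs'.ne', zero_add]
    exact Real.rpow_le_rpow hB0 hBE hs'.le
  rcases hB0.eq_or_lt with h | hBp
  · rw [← h, Real.zero_rpow hs'.ne', add_zero]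
    exact Real.rpow_le_rpow hA0 hAE hs'.le
  have ha : 0 < A ^ (1 / s) := Real.rpow_pos_of_pos hAp _
  have hb : 0 < B ^ (1 / s) := Real.rpow_pos_of_pos hBp _
  obtain ⟨c, hc⟩ : ∃ c : ℝ, c = A ^ (1 / s) + B ^ (1 / s) := ⟨_, rfl⟩
  have hc0 : 0 < c := by rw [hc]; positivity
  obtain ⟨l, hl⟩ : ∃ l : ℝ, l = A ^ (1 / s) / c := ⟨_, rfl⟩
  obtain ⟨m, hm⟩ : ∃ m : ℝ, m = B ^ (1 / s) / c := ⟨_, rfl⟩
  have hl0 : 0 < l := by rw [hl]; positivity
  have hm0 : 0 < m := by rw [hm]; positivity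
  have hlm : l + m = 1 := by rw [hl, hm, ← add_div, ← hc, div_self hc0.ne']
  have hpt : ∀ z, l / l ^ s * F z ^ s + m / m ^ s * K z ^ s ≤ (F z + K z) ^ s := by
    intro z
    have h1 := (Real.concaveOn_rpow hs0.le hs1).2
      (show F z / l ∈ Ici (0 : ℝ) from div_nonneg (hF0 z) hl0.le)
      (show K z / m ∈ Ici (0 : ℝ) from div_nonneg (hK0 z) hm0.le) hl0.le hm0.le hlm
    simp only [smul_eq_mul] at h1
    rw [mul_div_cancel₀ _ hl0.ne', mul_div_cancel₀ _ hm0.ne', Real.div_rpow (hF0 z) hl0.le,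
      Real.div_rpow (hK0 z) hm0.le] at h1
    calc l / l ^ s * F z ^ s + m / m ^ s * K z ^ s =
          l * (F z ^ s / l ^ s) + m * (K z ^ s / m ^ s) := by ring
      _ ≤ _ := h1
  have h2 : l / l ^ s * A + m / m ^ s * B ≤ E := by
    have h3 : ∫ z, (l / l ^ s * F z ^ s + m / m ^ s * K z ^ s) ≤ ∫ z, (F z + K z) ^ s :=
      integral_mono ((hF.const_mul (l / l ^ s)).add (hK.const_mul (m / m ^ s))) hFK hpt
    rw [integral_add (hF.const_mul _) (hK.const_mul _), integral_const_mul,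
      integral_const_mul] at h3
    exact h3
  have hpow : ∀ x : ℝ, 0 < x → (x ^ (1 / s)) ^ s = x := by
    intro x hx
    rw [← Real.rpow_mul hx.le, one_div, inv_mul_cancel₀ hs0.ne', Real.rpow_one]
  have h3 : l / l ^ s * A + m / m ^ s * B = c ^ s := by
    have h4 : l ^ s = A / c ^ s := by
      rw [hl, Real.div_rpow ha.le hc0.le, hpow A hAp]
    have h5 : m ^ s = B / c ^ s := by
      rw [hm, Real.div_rpow hb.le hc0.le, hpow B hBp]
    have hcs : 0 < c ^ s := Real.rpow_pos_of_pos hc0 _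
    rw [h4, h5]
    calc l / (A / c ^ s) * A + m / (B / c ^ s) * B = (l + m) * c ^ s := by
          field_simp
      _ = c ^ s := by rw [hlm, one_mul]
  rw [h3] at h2
  calc A ^ (1 / s) + B ^ (1 / s) = c := hc.symm
    _ = (c ^ s) ^ (1 / s) := by
        rw [← Real.rpow_mul hc0.le, mul_one_div, div_self hs0.ne', Real.rpow_one]
    _ ≤ E ^ (1 / s) := Real.rpow_le_rpow (Real.rpow_nonneg hc0.le _) h2 hs'.le

lemma cex_sq {x : ℝ} (hx : 0 ≤ x) (r : ℝ) : (x ^ 2) ^ (r / 2) = x ^ r := by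
  rw [← Real.rpow_natCast, ← Real.rpow_mul hx]
  congr 1
  push_cast
  ring

/-- The real and the imaginary part of a complex-valued extremal. -/
lemma cex_split (hSOB : T_SOB) {n : ℕ} (hn : 1 ≤ n) {p S : ℝ} (hp : 1 < p) (hp2 : p ≤ 2)
    (hq2 : 2 < ps n p) (hS : Opt n p S) {a b : H n → ℝ} {g h : H n → G n} (ha : Cl p a g)
    (hb : Cl p b h) (heq : (∫ z, (a z ^ 2 + b z ^ 2) ^ (ps n p / 2)) ^ th n p =
      S⁻¹ * ∫ z, (‖g z‖ ^ 2 + ‖h z‖ ^ 2) ^ (p / 2)) :
    ms (ps n p) a ^ th n p = S⁻¹ * en p g ∧ ms (ps n p) b ^ th n p = S⁻¹ * en p h := by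
  have hn' : (1 : ℝ) ≤ n := by exact_mod_cast hn
  have hpQ : p < 2 * n + 2 := by linarith
  have hp0 : 0 < p := by linarith
  obtain ⟨hq, hth, hqt⟩ := fin_exp hn hp hpQ
  have hq0 : 0 < ps n p := by linarith
  have hS0 : 0 < S := hS.1
  -- integrability
  have hgi : Integrable (fun z => ‖g z‖ ^ p) := by
    have := ha.2.1.integrable_norm_rpow (by simpa using hp0) ENNReal.ofReal_ne_top
    simpa [ENNReal.toReal_ofReal hp0.le] using this
  have hhi : Integrable (fun z => ‖h z‖ ^ p) := by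
    have := hb.2.1.integrable_norm_rpow (by simpa using hp0) ENNReal.ofReal_ne_top
    simpa [ENNReal.toReal_ofReal hp0.le] using this
  have hghi : Integrable (fun z => (‖g z‖ ^ 2 + ‖h z‖ ^ 2) ^ (p / 2)) := by
    refine (hgi.add hhi).mono' ?_ (Eventually.of_forall fun z => ?_)
    · exact ((((ha.2.1.1.norm.pow 2).add (hb.2.1.1.norm.pow 2))).aemeasurable.pow_const
        _).aestronglyMeasurable
    · rw [Real.norm_of_nonneg (by positivity)]
      have h1 := Real.rpow_add_le_add_rpow (sq_nonneg ‖g z‖) (sq_nonneg ‖h z‖)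
        (by positivity : (0 : ℝ) ≤ p / 2) (by linarith)
      rw [cex_sq (norm_nonneg _), cex_sq (norm_nonneg _)] at h1
      exact h1
  -- the energies
  have hE := cex_int (s := p / 2) (by positivity) (by linarith)
    (F := fun z => ‖g z‖ ^ 2) (K := fun z => ‖h z‖ ^ 2) (fun z => sq_nonneg _)
    (fun z => sq_nonneg _) (by
      refine hgi.congr (Eventually.of_forall fun z => ?_)
      simp only
      rw [cex_sq (norm_nonneg _)])
    (by
      refine hhi.congr (Eventually.of_forall fun z => ?_)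
      simp only
      rw [cex_sq (norm_nonneg _)]) hghi
  have hp2' : 1 / (p / 2) = 2 / p := by field_simp
  rw [hp2'] at hE
  have hE1 : ∫ z, (‖g z‖ ^ 2) ^ (p / 2) = en p g := by
    refine integral_congr_ae (Eventually.of_forall fun z => ?_)
    simp only
    rw [cex_sq (norm_nonneg _)]
  have hE2 : ∫ z, (‖h z‖ ^ 2) ^ (p / 2) = en p h := by
    refine integral_congr_ae (Eventually.of_forall fun z => ?_)
    simp only
    rw [cex_sq (norm_nonneg _)]
  rw [hE1, hE2] at hE
  -- the masses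
  have hsqm : ∀ f : H n → ℝ, MemLp f (ENNReal.ofReal (ps n p)) →
      MemLp (fun z => f z ^ 2) (ENNReal.ofReal (ps n p / 2)) := by
    intro f hf
    have hq2' : 0 < ps n p / 2 := by positivity
    refine (integrable_norm_rpow_iff (hf.1.pow 2) (by simpa using hq2')
      ENNReal.ofReal_ne_top).1 ?_
    rw [ENNReal.toReal_ofReal hq2'.le]
    have := hf.integrable_norm_rpow (by simpa using hq0) ENNReal.ofReal_ne_top
    rw [ENNReal.toReal_ofReal hq0.le] at this
    refine this.congr (Eventually.of_forall fun z => ?_)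
    simp only [Pi.pow_apply]
    rw [norm_pow, cex_sq (norm_nonneg _)]
  have hM := unq_mink (p := ps n p / 2) (by linarith) ((hsqm a ha.1).add (hsqm b hb.1))
    (hsqm b hb.1)
  have hM1 : ∫ z, ‖((fun z => a z ^ 2) + fun z => b z ^ 2) z‖ ^ (ps n p / 2) =
      ∫ z, (a z ^ 2 + b z ^ 2) ^ (ps n p / 2) := by
    refine integral_congr_ae (Eventually.of_forall fun z => ?_)
    simp only [Pi.add_apply]
    rw [Real.norm_of_nonneg (by positivity)]
  have hM2 : ∫ z, ‖((fun z => a z ^ 2) + fun z => b z ^ 2) z - b z ^ 2‖ ^ (ps n p / 2) =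
      ms (ps n p) a := by
    refine integral_congr_ae (Eventually.of_forall fun z => ?_)
    simp only [Pi.add_apply]
    rw [add_sub_cancel_right, norm_pow, Real.norm_eq_abs, cex_sq (abs_nonneg _)]
  have hM3 : ∫ z, ‖b z ^ 2‖ ^ (ps n p / 2) = ms (ps n p) b := by
    refine integral_congr_ae (Eventually.of_forall fun z => ?_)
    simp only
    rw [norm_pow, Real.norm_eq_abs, cex_sq (abs_nonneg _)]
  rw [hM1, hM2, hM3] at hM
  have hq2'' : 1 / (ps n p / 2) = 2 / ps n p := by field_simp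
  rw [hq2''] at hM
  -- comparison
  have hA0 : 0 ≤ ms (ps n p) a := integral_nonneg fun z => Real.rpow_nonneg (abs_nonneg _) _
  have hB0 : 0 ≤ ms (ps n p) b := integral_nonneg fun z => Real.rpow_nonneg (abs_nonneg _) _
  have hG0 : 0 ≤ en p g := integral_nonneg fun z => Real.rpow_nonneg (norm_nonneg _) _
  have hH0 : 0 ≤ en p h := integral_nonneg fun z => Real.rpow_nonneg (norm_nonneg _) _
  have hP0 : 0 ≤ ∫ z, (a z ^ 2 + b z ^ 2) ^ (ps n p / 2) :=
    integral_nonneg fun z => Real.rpow_nonneg (by positivity) _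
  have hexp : th n p * (2 / p) = 2 / ps n p := by
    field_simp
    linarith
  have hpw : ∀ x : ℝ, 0 ≤ x → (S * x ^ th n p) ^ (2 / p) = S ^ (2 / p) * x ^ (2 / ps n p) := by
    intro x hx
    rw [Real.mul_rpow hS0.le (Real.rpow_nonneg hx _), ← Real.rpow_mul hx, hexp]
  have hsa := hSOB n hn p S hp hpQ hS a g ha
  have hsb := hSOB n hn p S hp hpQ hS b h hb
  have h2p : 0 < 2 / p := by positivity
  have hy1 := Real.rpow_le_rpow (mul_nonneg hS0.le (Real.rpow_nonneg hA0 _)) hsa h2p.le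
  have hy2 := Real.rpow_le_rpow (mul_nonneg hS0.le (Real.rpow_nonneg hB0 _)) hsb h2p.le
  have hEe : ∫ z, (‖g z‖ ^ 2 + ‖h z‖ ^ 2) ^ (p / 2) =
      S * (∫ z, (a z ^ 2 + b z ^ 2) ^ (ps n p / 2)) ^ th n p := by
    rw [heq, ← mul_assoc, mul_inv_cancel₀ hS0.ne', one_mul]
  rw [hEe, hpw _ hP0] at hE
  have hSp : 0 < S ^ (2 / p) := Real.rpow_pos_of_pos hS0 _
  have hM' := mul_le_mul_of_nonneg_left hM hSp.le
  rw [mul_add, ← hpw _ hA0, ← hpw _ hB0] at hM'
  have hx1 : (S * ms (ps n p) a ^ th n p) ^ (2 / p) = en p g ^ (2 / p) := by linarith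
  have hx2 : (S * ms (ps n p) b ^ th n p) ^ (2 / p) = en p h ^ (2 / p) := by linarith
  have hinj : ∀ x y : ℝ, 0 ≤ x → 0 ≤ y → x ^ (2 / p) = y ^ (2 / p) → x = y := by
    intro x y hx hy hxy
    have h1 : ∀ t : ℝ, 0 ≤ t → (t ^ (2 / p)) ^ (p / 2) = t := by
      intro t ht
      rw [← Real.rpow_mul ht]
      have : 2 / p * (p / 2) = 1 := by field_simp
      rw [this, Real.rpow_one]
    rw [← h1 x hx, ← h1 y hy, hxy]
  have h1 := hinj _ _ (mul_nonneg hS0.le (Real.rpow_nonneg hA0 _)) hG0 hx1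
  have h2 := hinj _ _ (mul_nonneg hS0.le (Real.rpow_nonneg hB0 _)) hH0 hx2
  constructor
  · rw [← h1, ← mul_assoc, inv_mul_cancel₀ hS0.ne', one_mul]
  · rw [← h2, ← mul_assoc, inv_mul_cancel₀ hS0.ne', one_mul]

/-- Functions with equality in the Sobolev inequality have a constant sign. -/
lemma cex_sign (hSGN : T_SGN) (hCLA : T_CLA) {n : ℕ} (hn : 1 ≤ n) {p S : ℝ} (hp : 1 < p)
    (hpQ : p < 2 * n + 2) (hS : Opt n p S) {a : H n → ℝ} {g : H n → G n} (ha : Cl p a g)
    (heq : ms (ps n p) a ^ th n p = S⁻¹ * en p g) : (∀ᵐ z, 0 ≤ a z) ∨ (∀ᵐ z, a z ≤ 0) := by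
  by_cases h0 : a =ᵐ[volume] 0
  · left
    filter_upwards [h0] with z hz
    rw [hz]
    rfl
  · obtain ⟨hm, hx⟩ := fin_norm hCLA hn hp hpQ hS.1 h0 ha heq
    have hκ : 0 < ms (ps n p) a ^ (-(1 / ps n p)) := Real.rpow_pos_of_pos hm _
    rcases hSGN n hn p S hp hpQ hS _ _ (hx 1 (by simp)) with h1 | h1
    · left
      filter_upwards [h1] with z hz
      rw [one_mul] at hz
      exact nonneg_of_mul_nonneg_right hz hκ
    · right
      filter_upwards [h1] with z hz
      rw [one_mul] at hz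
      exact nonpos_of_mul_nonpos_right hz hκ

/-- Proportionality from constant signs. -/
lemma cex_prop {n : ℕ} {a b : H n → ℝ} (ha : ∀ᵐ z, 0 ≤ a z) (ha0 : ¬ a =ᵐ[volume] 0)
    (h : ∀ t : ℝ, (∀ᵐ z, 0 ≤ b z - t * a z) ∨ (∀ᵐ z, b z - t * a z ≤ 0)) :
    ∃ t : ℝ, ∀ᵐ z, b z = t * a z := by
  set E : Set ℝ := {t | ∀ᵐ z, 0 ≤ b z - t * a z} with hE
  have hdown : ∀ s t : ℝ, s ≤ t → t ∈ E → s ∈ E := by
    intro s t hst ht
    change ∀ᵐ z, 0 ≤ b z - t * a z at ht
    change ∀ᵐ z, 0 ≤ b z - s * a z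
    filter_upwards [ht, ha] with z h1 h2
    have := mul_le_mul_of_nonneg_right hst h2
    linarith
  have hnot : ∀ t : ℝ, t ∉ E → ∀ᵐ z, b z - t * a z ≤ 0 := fun t ht => (h t).resolve_left ht
  have hne : E.Nonempty := by
    by_contra hcon
    rw [not_nonempty_iff_eq_empty] at hcon
    apply ha0
    have h1 : ∀ᵐ z, ∀ k : ℕ, b z - (-(k : ℝ)) * a z ≤ 0 :=
      ae_all_iff.2 fun k => hnot _ (by rw [hcon]; exact notMem_empty _)
    filter_upwards [h1, ha] with z h2 h3
    by_contra h4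
    have h5 : 0 < a z := lt_of_le_of_ne h3 (Ne.symm h4)
    obtain ⟨k, hk⟩ := exists_nat_gt (-b z / a z)
    rw [div_lt_iff₀ h5] at hk
    have := h2 k
    linarith
  have hbd : BddAbove E := by
    by_contra hcon
    apply ha0
    have hall : ∀ k : ℕ, ((k : ℝ)) ∈ E := by
      intro k
      rw [not_bddAbove_iff] at hcon
      obtain ⟨y, hy, hky⟩ := hcon k
      exact hdown _ _ hky.le hy
    have h1 : ∀ᵐ z, ∀ k : ℕ, 0 ≤ b z - (k : ℝ) * a z := ae_all_iff.2 fun k => hall k
    filter_upwards [h1, ha] with z h2 h3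
    by_contra h4
    have h5 : 0 < a z := lt_of_le_of_ne h3 (Ne.symm h4)
    obtain ⟨k, hk⟩ := exists_nat_gt (b z / a z)
    rw [div_lt_iff₀ h5] at hk
    have := h2 k
    linarith
  refine ⟨sSup E, ?_⟩
  have hlo : ∀ k : ℕ, sSup E - 1 / ((k : ℝ) + 1) ∈ E := by
    intro k
    have hk : (0 : ℝ) < 1 / ((k : ℝ) + 1) := by positivity
    obtain ⟨y, hy, hky⟩ := exists_lt_of_lt_csSup hne (by linarith :
      sSup E - 1 / ((k : ℝ) + 1) < sSup E)
    exact hdown _ _ hky.le hy
  have hhi : ∀ k : ℕ, sSup E + 1 / ((k : ℝ) + 1) ∉ E := by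
    intro k hk
    have h1 := le_csSup hbd hk
    have : (0 : ℝ) < 1 / ((k : ℝ) + 1) := by positivity
    linarith
  have h1 : ∀ᵐ z, ∀ k : ℕ, 0 ≤ b z - (sSup E - 1 / ((k : ℝ) + 1)) * a z :=
    ae_all_iff.2 fun k => hlo k
  have h2 : ∀ᵐ z, ∀ k : ℕ, b z - (sSup E + 1 / ((k : ℝ) + 1)) * a z ≤ 0 :=
    ae_all_iff.2 fun k => hnot _ (hhi k)
  filter_upwards [h1, h2] with z h3 h4
  have hlim : Tendsto (fun k : ℕ => 1 / ((k : ℝ) + 1)) atTop (𝓝 0) :=
    tendsto_one_div_add_atTop_nhds_zero_nat (𝕜 := ℝ)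
  have h5 : Tendsto (fun k : ℕ => b z - (sSup E - 1 / ((k : ℝ) + 1)) * a z) atTop
      (𝓝 (b z - (sSup E - 0) * a z)) :=
    tendsto_const_nhds.sub ((tendsto_const_nhds.sub hlim).mul_const _)
  have h6 : Tendsto (fun k : ℕ => b z - (sSup E + 1 / ((k : ℝ) + 1)) * a z) atTop
      (𝓝 (b z - (sSup E + 0) * a z)) :=
    tendsto_const_nhds.sub ((tendsto_const_nhds.add hlim).mul_const _)
  have h7 := ge_of_tendsto' h5 h3
  have h8 := le_of_tendsto' h6 h4
  rw [sub_zero] at h7
  rw [add_zero] at h8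
  linarith

theorem pf_CEX (hSOB : T_SOB) (hSGN : T_SGN) (hCLA : T_CLA) (hCLC : T_CLC) : T_CEX := by
  intro n hn p S hp hp2 hq2 hS
  have hn' : (1 : ℝ) ≤ n := by exact_mod_cast hn
  have hpQ : p < 2 * n + 2 := by linarith
  have hp0 : 0 < p := by linarith
  obtain ⟨hq, hth, hqt⟩ := fin_exp hn hp hpQ
  have hq0 : 0 < ps n p := by linarith
  have hS0 : 0 < S := hS.1
  have hnsq : ∀ w : ℂ, ‖w‖ ^ ps n p = (w.re ^ 2 + w.im ^ 2) ^ (ps n p / 2) := by
    intro w
    have h1 : w.re ^ 2 + w.im ^ 2 = ‖w‖ ^ 2 := by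
      rw [Complex.sq_norm, Complex.normSq_apply]
      ring
    rw [h1, cex_sq (norm_nonneg _)]
  constructor
  · rintro u ⟨hu0, g, h, hg', hh, heq⟩
    simp only [hnsq] at heq
    set a : H n → ℝ := fun z => (u z).re with ha
    set b : H n → ℝ := fun z => (u z).im with hb
    have hab := cex_split hSOB hn hp hp2 hq2 hS hg' hh heq
    -- rotations
    have hrot : ∀ t : ℝ, (∀ᵐ z, 0 ≤ b z - t * a z) ∨ (∀ᵐ z, b z - t * a z ≤ 0) := by
      intro t
      have h1 := hCLA n hn p hp hpQ _ _ _ _ 1 t hg' hh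
      have h2 := hCLA n hn p hp hpQ _ _ _ _ (-t) 1 hg' hh
      have ht : 0 ≤ 1 + t ^ 2 := by positivity
      have h3 : (∫ z, ((1 * a z + t * b z) ^ 2 + (-t * a z + 1 * b z) ^ 2) ^
          (ps n p / 2)) ^ th n p = S⁻¹ * ∫ z, (‖(1 : ℝ) • g z + t • h z‖ ^ 2 +
            ‖(-t) • g z + (1 : ℝ) • h z‖ ^ 2) ^ (p / 2) := by
        have h4 : ∀ z, ((1 * a z + t * b z) ^ 2 + (-t * a z + 1 * b z) ^ 2) ^ (ps n p / 2) =
            (1 + t ^ 2) ^ (ps n p / 2) * (a z ^ 2 + b z ^ 2) ^ (ps n p / 2) := by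
          intro z
          rw [← Real.mul_rpow ht (by positivity)]
          congr 1
          ring
        have h5 : ∀ z, (‖(1 : ℝ) • g z + t • h z‖ ^ 2 +
            ‖(-t) • g z + (1 : ℝ) • h z‖ ^ 2) ^ (p / 2) =
            (1 + t ^ 2) ^ (p / 2) * (‖g z‖ ^ 2 + ‖h z‖ ^ 2) ^ (p / 2) := by
          intro z
          rw [← Real.mul_rpow ht (by positivity)]
          congr 1
          rw [norm_add_sq_real, norm_add_sq_real]
          simp only [norm_smul, inner_smul_left, inner_smul_right, Real.norm_eq_abs, abs_neg,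
            mul_pow, sq_abs, conj_trivial]
          ring
        simp only [h4, h5]
        rw [integral_const_mul, integral_const_mul, Real.mul_rpow (Real.rpow_nonneg ht _)
          (integral_nonneg fun z => Real.rpow_nonneg (by positivity) _), heq,
          ← Real.rpow_mul ht]
        have h6 : ps n p / 2 * th n p = p / 2 := by linarith
        rw [h6]
        ring
      have h4 := (cex_split hSOB hn hp hp2 hq2 hS h1 h2 h3).2
      rcases cex_sign hSGN hCLA hn hp hpQ hS h2 h4 with h5 | h5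
      · left
        filter_upwards [h5] with z hz
        linarith
      · right
        filter_upwards [h5] with z hz
        linarith
    by_cases ha0 : a =ᵐ[volume] 0
    · have hb0 : ¬ b =ᵐ[volume] 0 := by
        intro hb0
        apply hu0
        filter_upwards [ha0, hb0] with z h1 h2
        exact Complex.ext h1 h2
      refine ⟨Complex.I, b, Complex.I_ne_zero, ⟨hb0, h, hh, hab.2⟩, ?_⟩
      filter_upwards [ha0] with z h1
      apply Complex.ext
      · simpa using h1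
      · simp [hb]
    · have hs : ∃ t : ℝ, ∀ᵐ z, b z = t * a z := by
        rcases cex_sign hSGN hCLA hn hp hpQ hS hg' hab.1 with h1 | h1
        · exact cex_prop h1 ha0 hrot
        · have h2 : ∀ᵐ z, 0 ≤ (fun z => -a z) z := by
            filter_upwards [h1] with z hz
            linarith
          have h3 : ¬ (fun z => -a z) =ᵐ[volume] 0 := by
            intro h3
            apply ha0
            filter_upwards [h3] with z hz
            simp only [Pi.zero_apply, neg_eq_zero] at hz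
            exact hz
          obtain ⟨t, ht⟩ := cex_prop (b := b) h2 h3 (fun t => by
            rcases hrot (-t) with h4 | h4
            · left
              filter_upwards [h4] with z hz
              linarith
            · right
              filter_upwards [h4] with z hz
              linarith)
          refine ⟨-t, ?_⟩
          filter_upwards [ht] with z hz
          rw [hz]
          ring
      obtain ⟨t, ht⟩ := hs
      refine ⟨⟨1, t⟩, a, ?_, ⟨ha0, g, hg', hab.1⟩, ?_⟩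
      · intro h1
        have := congrArg Complex.re h1
        simp at this
      · filter_upwards [ht] with z hz
        apply Complex.ext
        · simp [ha]
        · simp only [Complex.mul_im, Complex.ofReal_re, Complex.ofReal_im]
          rw [mul_zero, zero_add]
          exact hz
  · rintro c v hc ⟨hv0, g, hg', heq⟩ u hu
    refine ⟨?_, fun z => c.re • g z, fun z => c.im • g z, ?_, ?_, ?_⟩
    · intro h1
      apply hv0
      filter_upwards [h1, hu] with z h2 h3
      rw [h3] at h2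
      simp only [Pi.zero_apply, mul_eq_zero, Complex.ofReal_eq_zero] at h2
      exact h2.resolve_left hc
    · refine (hCLC n hn p hp hpQ).1 _ _ _ _ (fin_cl_smul hCLA hn hp hpQ hg' c.re) ?_
        (EventuallyEq.refl _ _)
      filter_upwards [hu] with z hz
      rw [hz]
      simp
    · refine (hCLC n hn p hp hpQ).1 _ _ _ _ (fin_cl_smul hCLA hn hp hpQ hg' c.im) ?_
        (EventuallyEq.refl _ _)
      filter_upwards [hu] with z hz
      rw [hz]
      simp
    · have h1 : ∫ z, ‖u z‖ ^ ps n p = ‖c‖ ^ ps n p * ms (ps n p) v := by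
        unfold ms
        rw [← integral_const_mul]
        refine integral_congr_ae ?_
        filter_upwards [hu] with z hz
        rw [hz, norm_mul, Real.mul_rpow (norm_nonneg _) (norm_nonneg _), Complex.norm_real,
          Real.norm_eq_abs]
      have h2 : ∫ z, (‖c.re • g z‖ ^ 2 + ‖c.im • g z‖ ^ 2) ^ (p / 2) = ‖c‖ ^ p * en p g := by
        unfold en
        rw [← integral_const_mul]
        refine integral_congr_ae (Eventually.of_forall fun z => ?_)
        simp only
        have h3 : ‖c.re • g z‖ ^ 2 + ‖c.im • g z‖ ^ 2 = (‖c‖ * ‖g z‖) ^ 2 := by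
          rw [norm_smul, norm_smul, mul_pow, mul_pow, mul_pow, Complex.sq_norm,
            Complex.normSq_apply, Real.norm_eq_abs, Real.norm_eq_abs, sq_abs, sq_abs]
          ring
        rw [h3, cex_sq (by positivity), Real.mul_rpow (norm_nonneg _) (norm_nonneg _)]
      have hms0 : 0 ≤ ms (ps n p) v :=
        integral_nonneg fun z => Real.rpow_nonneg (abs_nonneg _) _
      rw [h1, h2, Real.mul_rpow (Real.rpow_nonneg (norm_nonneg _) _) hms0, heq,
        ← Real.rpow_mul (norm_nonneg _), hqt]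
      ring

end Pool.Agent.H27.HC
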