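import Pool.Agent.H27.HB.RAT
import Pool.Agent.H27.HC.CEX

/-!
The final statements with complex-valued functions, MP_8352e3_an.
-/

set_option autoImplicit false

namespace Pool.Agent.H27.HC
open MeasureTheory Set Filter Topology Pool.Agent.H80.HS Pool.Agent.H93.HQ Pool.Agent.H27.HB
open Pool.Agent.H27.HP
open scoped ContDiff ENNReal

/-- The final statement for `p < 2`, real- and complex-valued functions. -/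
def T_FI4 : Prop := ∀ n : ℕ, 1 ≤ n → IsLeast {C : ℝ | SobolevIneq ℝ n 2 C} (KK n 2) ∧
  ∃ δ A : ℝ, 0 < δ ∧ δ < 1 ∧ 0 < A ∧ ∀ p : ℝ, 2 - δ < p → p < 2 →
  ∃ C : ℝ, IsLeast {C : ℝ | SobolevIneq ℝ n p C} C ∧ IsLeast {C : ℝ | SobolevIneq ℂ n p C} C ∧
    0 < KK n p ∧ KK n p ≤ C ∧ C ≤ KK n p + A * (2 - p) ^ 2 ∧
    ∃ U : H n → ℝ, (∀ z, 0 ≤ U z) ∧ ms (ps n p) U = 1 ∧
      (∀ u : H n → ℝ, Extr n p C u ↔ ∃ (c : ℝ) (a : H n) (r : ℝ), c ≠ 0 ∧ 0 < r ∧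
        u =ᵐ[volume] fun z => c * U (dil r (mul a z))) ∧
      (∀ u : H n → ℂ, ExtrC n p C u ↔ ∃ (c : ℂ) (a : H n) (r : ℝ), c ≠ 0 ∧ 0 < r ∧
        u =ᵐ[volume] fun z => c * (U (dil r (mul a z)) : ℂ)) ∧
      (∀ M ∈ Matrix.unitaryGroup (Fin n) ℂ, (fun z => U (ua M z)) =ᵐ[volume] U) ∧
      (fun z => U (rfn z)) =ᵐ[volume] U ∧
      ms (ps n p) (fun z => U z - yq n (ps n p) z) ^ (1 / ps n p) ≤ A * (2 - p)

/-- The final statement for `p > 2`. -/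
def T_FI5 : Prop := ∀ n : ℕ, 1 ≤ n → IsLeast {C : ℝ | SobolevIneq ℝ n 2 C} (KK n 2) ∧
  ∃ A : ℝ, 0 < A ∧ ∀ M : ℝ, 0 < M → ∃ δ : ℝ, 0 < δ ∧ δ < 1 ∧ ∀ p : ℝ, 2 < p → p < 2 + δ →
  ∃ C : ℝ, IsLeast {C : ℝ | SobolevIneq ℝ n p C} C ∧ IsLeast {C : ℝ | SobolevIneq ℂ n p C} C ∧
  0 < KK n p ∧ KK n p ≤ C ∧ C ≤ KK n p + A * (p - 2) ^ 2 ∧
  ∃ U : H n → ℝ, (∀ z, 0 ≤ U z) ∧ ms (ps n p) U = 1 ∧ Extr n p C U ∧
    ms (ps n p) (fun z => U z - yq n (ps n p) z) ^ (1 / ps n p) ≤ A * (p - 2) ∧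
    (∀ u : H n → ℝ, Extr n p C u → ∃ (c : ℝ) (a : H n) (r : ℝ), c ≠ 0 ∧ 0 < r ∧
      ms (ps n p) (fun z => u z - c * U (dil r (mul a z))) ^ (1 / ps n p) ≤
        Real.exp (-(M / (p - 2))) * ms (ps n p) u ^ (1 / ps n p)) ∧
    (∀ B ∈ Matrix.unitaryGroup (Fin n) ℂ,
      ms (ps n p) (fun z => U (ua B z) - U z) ^ (1 / ps n p) ≤ Real.exp (-(M / (p - 2)))) ∧
    ms (ps n p) (fun z => U (rfn z) - U z) ^ (1 / ps n p) ≤ Real.exp (-(M / (p - 2)))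

lemma fic_least (hCPX : T_CPX) {n : ℕ} (hn : 1 ≤ n) {p C : ℝ} (hp : 1 < p)
    (hpQ : p < 2 * n + 2) (hC0 : 0 < C) (hC : IsLeast {C : ℝ | SobolevIneq ℝ n p C} C) :
    IsLeast {C : ℝ | SobolevIneq ℂ n p C} C :=
  ⟨(hCPX n p C hn hp hpQ).2 hC0.le hC.1, fun _ hC' => hC.2 ((hCPX n p _ hn hp hpQ).1 hC')⟩

theorem pf_FI4 (hFI2 : T_FI2) (hCPX : T_CPX) (hCEX : T_CEX) : T_FI4 := by
  intro n hn
  have hn' : (1 : ℝ) ≤ n := by exact_mod_cast hn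
  obtain ⟨h2, δ, A, hδ, hδ1, hA, H⟩ := hFI2 n hn
  refine ⟨h2, min δ (min (1 / 8) (2 / ((n : ℝ) + 2))), A, by positivity,
    (min_le_left _ _).trans_lt hδ1, hA, ?_⟩
  intro p hp1 hp2
  have hpδ : 2 - δ < p := by
    have := min_le_left δ (min (1 / 8) (2 / ((n : ℝ) + 2)))
    linarith
  have hpδ' : 2 - min (1 / 8) (2 / ((n : ℝ) + 2)) < p := by
    have := min_le_right δ (min (1 / 8) (2 / ((n : ℝ) + 2)))
    linarith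
  obtain ⟨hp15, hq2, -⟩ := rat_exp hn hpδ' hp2
  have hp : 1 < p := by linarith
  have hpQ : p < 2 * n + 2 := by linarith
  obtain ⟨C, hC, hK0, hK1, hK2, U, hU0, hU1, hU2, hU3, hU4, hU5, hU6⟩ := H p hpδ hp2
  have hC0 : 0 < C := hK0.trans_le hK1
  have hS : Opt n p C⁻¹ := ⟨inv_pos.2 hC0, by rw [inv_inv]; exact hC⟩
  obtain ⟨hE1, hE2⟩ := hCEX n hn p C⁻¹ hp hp2.le hq2 hS
  rw [inv_inv] at hE1 hE2
  refine ⟨C, hC, fic_least hCPX hn hp hpQ hC0 hC, hK0, hK1, hK2, U, hU0, hU1, hU3, ?_, hU4, hU5,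
    hU6⟩
  intro u
  constructor
  · intro hu
    obtain ⟨c, v, hc, hv, huv⟩ := hE1 u hu
    obtain ⟨d, a, r, hd, hr, hvd⟩ := (hU3 v).1 hv
    refine ⟨c * d, a, r, mul_ne_zero hc (by exact_mod_cast hd), hr, ?_⟩
    filter_upwards [huv, hvd] with z h3 h4
    rw [h3, h4]
    push_cast
    ring
  · rintro ⟨c, a, r, hc, hr, hu⟩
    have hv : Extr n p C (fun z => U (dil r (mul a z))) :=
      (hU3 _).2 ⟨1, a, r, one_ne_zero, hr, Eventually.of_forall fun z => by simp⟩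
    exact hE2 c _ hc hv u hu

theorem pf_FI5 (hFI2 : T_FI2) (hFI3 : T_FI3) (hCPX : T_CPX) : T_FI5 := by
  intro n hn
  have hn' : (1 : ℝ) ≤ n := by exact_mod_cast hn
  obtain ⟨h2, -⟩ := hFI2 n hn
  obtain ⟨A, hA, H⟩ := hFI3 n hn
  refine ⟨h2, A, hA, fun M hM => ?_⟩
  obtain ⟨δ, hδ, hδ1, H'⟩ := H M hM
  refine ⟨δ, hδ, hδ1, fun p hp1 hp2 => ?_⟩
  obtain ⟨C, hC, hK0, hK1, hK2, hrest⟩ := H' p hp1 hp2
  have hC0 : 0 < C := hK0.trans_le hK1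
  exact ⟨C, hC, fic_least hCPX hn (by linarith) (by linarith) hC0 hC, hK0, hK1, hK2, hrest⟩

end Pool.Agent.H27.HC
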