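import Pool.Agent.H27.HB.Main
import Pool.Agent.H27.HC.FIC
import Pool.Agent.H69.HC.CPX

/-!
Assembly for MP_8352e3_an, real- and complex-valued functions, `p < 2`.
-/

set_option autoImplicit false

namespace Pool.Agent.H27.HC
open MeasureTheory Set Filter Topology Pool.Agent.H80.HS Pool.Agent.H93.HQ Pool.Agent.H27.HB

theorem hc_main : T_FI4 := by
  have h_HGA : T_HGA := Pool.Agent.H86.HB.pf_HGA
  have h_HGC : T_HGC := Pool.Agent.H17.HB.pf_HGC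
  have h_CLA : T_CLA := Pool.Agent.H11.HB.pf_CLA h_HGA
  have h_CLC : T_CLC := Pool.Agent.H1.HB.pf_CLC
  have h_CLT : T_CLT := Pool.Agent.H60.HB.pf_CLT h_HGC
  have h_LPN : T_LPN := Pool.Agent.H1.HB.pf_LPN
  have h_ABS : T_ABS := Pool.Agent.H42.HB.pf_ABS h_HGA h_HGC h_CLC h_CLT
  have h_TQ : T_TQ := Pool.Agent.H60.HB.TQ.pf_TQ h_HGA
  have h_SOB : T_SOB := Pool.Agent.H68.HB.pf_SOB h_TQ h_CLT h_LPN
  have h_SGN : T_SGN := Pool.Agent.H60.HB.SGN.pf_SGN h_CLA h_ABS h_SOB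
  exact pf_FI4 hb_main Pool.Agent.H69.HC.pf_CPX (pf_CEX h_SOB h_SGN h_CLA h_CLC)

end Pool.Agent.H27.HC
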