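import Pool.Agent.H27.HB.Main
import Pool.Agent.H27.HP.Main
import Pool.Agent.H27.HC.FIC
import Pool.Agent.H69.HC.CPX

/-!
Assembly for MP_8352e3_an, `p > 2`.
-/

set_option autoImplicit false

namespace Pool.Agent.H27.HC
open MeasureTheory Set Filter Topology Pool.Agent.H80.HS Pool.Agent.H93.HQ Pool.Agent.H27.HB
open Pool.Agent.H27.HP

theorem hc_main2 : T_FI5 := pf_FI5 hb_main hp_main Pool.Agent.H69.HC.pf_CPX

end Pool.Agent.H27.HC
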