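import Pool.Agent.H27.HP.T

/-!
# Complex-valued functions: targets
-/

set_option autoImplicit false

namespace Pool.Agent.H27.HC
open MeasureTheory Set Filter Topology Pool.Agent.H80.HS Pool.Agent.H93.HQ Pool.Agent.H27.HB
open scoped ContDiff ENNReal

/-- Complex-valued extremals: `g`, `h` are the horizontal gradients of the real and of the
imaginary part of `u`. -/
def ExtrC (n : ℕ) (p C : ℝ) (u : H n → ℂ) : Prop :=
  ¬ u =ᵐ[volume] 0 ∧ ∃ g h : H n → G n, Cl p (fun z => (u z).re) g ∧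
    Cl p (fun z => (u z).im) h ∧
    (∫ z, ‖u z‖ ^ ps n p) ^ th n p = C * ∫ z, (‖g z‖ ^ 2 + ‖h z‖ ^ 2) ^ (p / 2)

/-- CPX: real- and complex-valued functions have the same constants. -/
def T_CPX : Prop := ∀ (n : ℕ) (p C : ℝ), 1 ≤ n → 1 < p → p < 2 * n + 2 →
  (SobolevIneq ℂ n p C → SobolevIneq ℝ n p C) ∧
  (0 ≤ C → SobolevIneq ℝ n p C → SobolevIneq ℂ n p C)

/-- CEX: complex-valued extremals for `1 < p ≤ 2`. -/
def T_CEX : Prop := ∀ n : ℕ, 1 ≤ n → ∀ p S : ℝ, 1 < p → p ≤ 2 → 2 < ps n p → Opt n p S →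
  (∀ u : H n → ℂ, ExtrC n p S⁻¹ u → ∃ (c : ℂ) (v : H n → ℝ), c ≠ 0 ∧ Extr n p S⁻¹ v ∧
    u =ᵐ[volume] fun z => c * (v z : ℂ)) ∧
  ∀ (c : ℂ) (v : H n → ℝ), c ≠ 0 → Extr n p S⁻¹ v → ∀ u : H n → ℂ,
    (u =ᵐ[volume] fun z => c * (v z : ℂ)) → ExtrC n p S⁻¹ u

end Pool.Agent.H27.HC
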